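import Mathlib
import Pool.Agent.H39.TO.Targets

/-!
# Row BEE: face sizes and degrees of the polyhedra of class `{0, 1}`
-/

set_option autoImplicit false

noncomputable section

namespace Pool.Agent.H38.TOH.BEE

open Pool.Agent.H57.CP Pool.Agent.H39.TO

variable {G : Type*} [Group G]

theorem conj_t (a b : G) (ha : a * a = 1) (hb : b * b = 1) (k : ℤ) : a * (a * b) ^ k = (a * b) ^ (-k) * a := by
  have ha' : a⁻¹ = a := inv_eq_of_mul_eq_one_left ha
  have hb' : b⁻¹ = b := inv_eq_of_mul_eq_one_left hb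
  have h := conj_zpow (i := k) (a := a) (b := a * b)
  have h1 : a * (a * b) * a⁻¹ = (a * b)⁻¹ := by
    rw [mul_inv_rev, ha', hb', ← mul_assoc, ha, one_mul]
  rw [h1, inv_zpow'] at h
  rw [h, inv_mul_cancel_right]

/-- elements of the group generated by two involutions -/
theorem dih (a b : G) (ha : a * a = 1) (hb : b * b = 1) (g : G) (hg : g ∈ Subgroup.closure {a, b}) :
    ∃ m : ℤ, g = (a * b) ^ m ∨ g = (a * b) ^ m * a := by
  have ha' : a⁻¹ = a := inv_eq_of_mul_eq_one_left ha
  have hb' : b⁻¹ = b := inv_eq_of_mul_eq_one_left hb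
  induction hg using Subgroup.closure_induction with
  | mem x hx =>
    rcases hx with hx | hx
    · subst hx; exact ⟨0, Or.inr (by simp)⟩
    · rw [Set.mem_singleton_iff] at hx
      subst hx
      refine ⟨-1, Or.inr ?_⟩
      rw [zpow_neg_one, mul_inv_rev, ha', hb', mul_assoc, ha, mul_one]
  | one => exact ⟨0, Or.inl (by simp)⟩
  | mul x y _ _ hx hy =>
    obtain ⟨m, hm⟩ := hx
    obtain ⟨k, hk⟩ := hy
    rcases hm with hm | hm <;> rcases hk with hk | hk
    · exact ⟨m + k, Or.inl (by rw [hm, hk, zpow_add])⟩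
    · exact ⟨m + k, Or.inr (by rw [hm, hk, zpow_add, mul_assoc])⟩
    · refine ⟨m + -k, Or.inr ?_⟩
      rw [hm, hk, mul_assoc, conj_t a b ha hb, zpow_add, mul_assoc]
    · refine ⟨m + -k, Or.inl ?_⟩
      rw [hm, hk, mul_assoc, ← mul_assoc a, conj_t a b ha hb, mul_assoc _ a a, ha, mul_one, zpow_add]
  | inv x _ hx =>
    obtain ⟨m, hm⟩ := hx
    rcases hm with hm | hm
    · exact ⟨-m, Or.inl (by rw [hm, zpow_neg])⟩
    · refine ⟨m, Or.inr ?_⟩
      rw [hm, mul_inv_rev, ha', ← zpow_neg, conj_t a b ha hb, neg_neg]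

theorem enc_z (g : Equiv.Perm H3) : ((Subgroup.zpowers g : Subgroup _) : Set (Equiv.Perm H3)).encard = oE g := by
  unfold oE
  split_ifs with h
  · have h2 : ¬ IsOfFinOrder g := by rwa [← orderOf_eq_zero_iff]
    exact (infinite_zpowers.mpr h2).encard_eq
  · have h2 : IsOfFinOrder g := by
      by_contra hc
      exact h (orderOf_eq_zero_iff.mpr hc)
    have h3 : ((Subgroup.zpowers g : Subgroup _) : Set (Equiv.Perm H3)).Finite := by
      by_contra hc
      exact (infinite_zpowers.mp hc) h2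
    rw [← h3.cast_ncard_eq]
    congr 1
    have := Nat.card_zpowers g
    rw [← this]
    rfl

/-- order of the group generated by two involutions -/
theorem enc_d (a b : Equiv.Perm H3) (ha : a * a = 1) (hb : b * b = 1) (a1 : a ≠ 1) (b1 : b ≠ 1) :
    ((Subgroup.closure {a, b} : Subgroup _) : Set (Equiv.Perm H3)).encard = 2 * oE (a * b) := by
  have ha' : a⁻¹ = a := inv_eq_of_mul_eq_one_left ha
  have hb' : b⁻¹ = b := inv_eq_of_mul_eq_one_left hb
  set t := a * b with ht
  have hta : a ∈ Subgroup.closure ({a, b} : Set (Equiv.Perm H3)) := Subgroup.subset_closure (by simp)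
  have htb : b ∈ Subgroup.closure ({a, b} : Set (Equiv.Perm H3)) := Subgroup.subset_closure (by simp)
  have htt : t ∈ Subgroup.closure ({a, b} : Set (Equiv.Perm H3)) := mul_mem hta htb
  have hna : a ∉ Subgroup.zpowers t := by
    intro h
    obtain ⟨j, hj⟩ := Subgroup.mem_zpowers_iff.mp h
    have hc : a * t = t * a := by
      rw [← hj]; exact ((Commute.refl t).zpow_left j).eq
    have hba : b = a * b * a := by
      rw [ht, ← mul_assoc, ha, one_mul] at hc
      exact hc
    have ht2 : t ^ (2 : ℤ) = 1 := by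
      rw [zpow_two, ht, ← mul_assoc, ← hba, hb]
    rcases Int.even_or_odd' j with ⟨k, hk | hk⟩
    · apply a1
      rw [← hj, hk, zpow_mul, ht2, one_zpow]
    · apply b1
      have : t = a := by rw [← hj, hk, zpow_add, zpow_mul, ht2, one_zpow, one_mul, zpow_one]
      rw [ht] at this
      exact mul_eq_left.mp this
  have hun : ((Subgroup.closure {a, b} : Subgroup _) : Set (Equiv.Perm H3)) =
      (Subgroup.zpowers t : Set (Equiv.Perm H3)) ∪ (fun x => x * a) '' (Subgroup.zpowers t : Set (Equiv.Perm H3)) := by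
    ext g
    constructor
    · intro hg
      obtain ⟨m, hm | hm⟩ := dih a b ha hb g hg
      · left; exact Subgroup.mem_zpowers_iff.mpr ⟨m, hm.symm⟩
      · right; exact ⟨t ^ m, Subgroup.mem_zpowers_iff.mpr ⟨m, rfl⟩, hm.symm⟩
    · rintro (hg | ⟨x, hx, rfl⟩)
      · obtain ⟨m, rfl⟩ := Subgroup.mem_zpowers_iff.mp hg
        exact Subgroup.zpow_mem _ htt m
      · obtain ⟨m, rfl⟩ := Subgroup.mem_zpowers_iff.mp hx
        exact mul_mem (Subgroup.zpow_mem _ htt m) hta
  rw [hun, Set.encard_union_eq, Function.Injective.encard_image (mul_left_injective a), enc_z, two_mul]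
  rw [Set.disjoint_left]
  rintro x hx ⟨y, hy, hxy⟩
  apply hna
  have : a = y⁻¹ * x := by rw [← hxy]; simp
  rw [this]
  exact mul_mem (inv_mem hy) hx

/-- size of one face -/
theorem face (v : H3) (r a b : Equiv.Perm H3) (rr : r * r = 1) (aa : a * a = 1) (a1 : a ≠ 1) (av : a v = v)
    (st : ∀ g ∈ G3 r a b, g v = v → g ∈ Subgroup.closure {a, b})
    (fr : ∀ g ∈ Subgroup.closure {a, b}, g (r v) = r v → g = 1)
    (ra : ∀ g ∈ Subgroup.closure {r, a}, g ∈ Subgroup.closure {a, b} → g = 1 ∨ g = a) :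
    (vts (fc r a {v, r v})).encard = oE (r * a) := by
  have hr : r ∈ Subgroup.closure ({r, a} : Set (Equiv.Perm H3)) := Subgroup.subset_closure (by simp)
  have ha : a ∈ Subgroup.closure ({r, a} : Set (Equiv.Perm H3)) := Subgroup.subset_closure (by simp)
  have ht : r * a ∈ Subgroup.closure ({r, a} : Set (Equiv.Perm H3)) := mul_mem hr ha
  have hle : Subgroup.closure ({r, a} : Set (Equiv.Perm H3)) ≤ G3 r a b := by
    apply Subgroup.closure_mono
    intro x hx
    rcases hx with hx | hx
    · simp [hx]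
    · rw [Set.mem_singleton_iff] at hx; simp [hx]
  have hrv : r (r v) = v := by
    rw [← Equiv.Perm.mul_apply, rr, Equiv.Perm.one_apply]
  have hset : vts (fc r a {v, r v}) = (fun h : Equiv.Perm H3 => h v) '' (Subgroup.zpowers (r * a) : Set (Equiv.Perm H3)) := by
    ext x
    constructor
    · rintro ⟨e, ⟨g, hg, rfl⟩, hx⟩
      have key : ∀ g ∈ Subgroup.closure ({r, a} : Set (Equiv.Perm H3)),
          g v ∈ (fun h : Equiv.Perm H3 => h v) '' (Subgroup.zpowers (r * a) : Set (Equiv.Perm H3)) := by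
        intro g hg
        obtain ⟨m, hm | hm⟩ := dih r a rr aa g hg
        · exact ⟨(r * a) ^ m, Subgroup.mem_zpowers_iff.mpr ⟨m, rfl⟩, by rw [hm]⟩
        · refine ⟨(r * a) ^ (m + 1), Subgroup.mem_zpowers_iff.mpr ⟨m + 1, rfl⟩, ?_⟩
          rw [hm]
          simp only [zpow_add, zpow_one, Equiv.Perm.mul_apply, av]
      obtain ⟨y, hy, rfl⟩ := hx
      rcases hy with hy | hy
      · rw [hy]; exact key g hg
      · rw [Set.mem_singleton_iff] at hy
        rw [hy]
        exact key (g * r) (mul_mem hg hr)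
    · rintro ⟨h, hh, rfl⟩
      obtain ⟨m, rfl⟩ := Subgroup.mem_zpowers_iff.mp hh
      exact ⟨((r * a) ^ m : Equiv.Perm H3) '' {v, r v}, ⟨(r * a) ^ m, Subgroup.zpow_mem _ ht m, rfl⟩,
        ⟨v, by simp, rfl⟩⟩
  have hone : ∀ m : ℤ, ((r * a) ^ m : Equiv.Perm H3) v = v → (r * a) ^ m = 1 := by
    intro m hm
    have h1 : (r * a) ^ m ∈ Subgroup.closure ({r, a} : Set (Equiv.Perm H3)) := Subgroup.zpow_mem _ ht m
    rcases ra _ h1 (st _ (hle h1) hm) with h | h
    · exact h
    · exfalso
      have hc : (r * a) * a = a * (r * a) := by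
        have h3 : Commute (r * a) ((r * a) ^ m) := (Commute.refl _).zpow_right m
        rw [h] at h3
        exact h3.eq
      have hr2 : a * r = r * a := by
        have h4 : r = a * (r * a) := by rw [← hc, mul_assoc, aa, mul_one]
        calc a * r = a * (a * (r * a)) := by rw [← h4]
          _ = r * a := by rw [← mul_assoc, aa, one_mul]
      apply a1
      apply fr a (Subgroup.subset_closure (by simp))
      rw [← Equiv.Perm.mul_apply, hr2, Equiv.Perm.mul_apply, av]
  rw [hset, Set.InjOn.encard_image, enc_z]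
  intro x hx y hy hxy
  obtain ⟨m, rfl⟩ := Subgroup.mem_zpowers_iff.mp hx
  obtain ⟨k, rfl⟩ := Subgroup.mem_zpowers_iff.mp hy
  have h2 := hone (m - k) (by
    have h3 : ((r * a) ^ m : Equiv.Perm H3) v = ((r * a) ^ k : Equiv.Perm H3) v := hxy
    rw [sub_eq_neg_add, zpow_add, Equiv.Perm.mul_apply, h3, ← Equiv.Perm.mul_apply, ← zpow_add]
    simp)
  rw [sub_eq_add_neg, zpow_add, zpow_neg] at h2
  exact mul_inv_eq_one.mp h2

theorem vts_image (g : Equiv.Perm H3) (f : Set (Set H3)) : vts ((Set.image g) '' f) = g '' vts f := by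
  ext x
  constructor
  · rintro ⟨e, ⟨e', he', rfl⟩, y, hy, rfl⟩
    exact ⟨y, ⟨e', he', hy⟩, rfl⟩
  · rintro ⟨y, ⟨e', he', hy⟩, rfl⟩
    exact ⟨g '' e', ⟨e', he', rfl⟩, y, hy, rfl⟩

theorem enc_vts (g : Equiv.Perm H3) (f : Set (Set H3)) : (vts ((Set.image g) '' f)).encard = (vts f).encard := by
  rw [vts_image, Function.Injective.encard_image g.injective]

/-- the row -/
theorem pf : T_BEE := by
  intro v r a b B
  have hr : r ∈ G3 r a b := Subgroup.subset_closure (by simp)
  have hclab : Subgroup.closure ({a, b} : Set (Equiv.Perm H3)) ≤ G3 r a b := by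
    apply Subgroup.closure_mono
    intro x hx
    rcases hx with hx | hx
    · simp [hx]
    · rw [Set.mem_singleton_iff] at hx; simp [hx]
  have hrv : r (r v) = v := by
    rw [← Equiv.Perm.mul_apply, B.rr, Equiv.Perm.one_apply]
  have hfix : ∀ g ∈ Subgroup.closure ({a, b} : Set (Equiv.Perm H3)), g v = v := by
    intro g hg
    induction hg using Subgroup.closure_induction with
    | mem x hx =>
      rcases hx with hx | hx
      · rw [hx]; exact B.av
      · rw [Set.mem_singleton_iff] at hx; rw [hx]; exact B.bv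
    | one => rfl
    | mul x y _ _ hx hy => rw [Equiv.Perm.mul_apply, hy, hx]
    | inv x _ hx => rw [Equiv.Perm.inv_eq_iff_eq]; exact hx.symm
  have fa : (vts (fc r a {v, r v})).encard = oE (r * a) :=
    face v r a b B.rr B.aa B.a1 B.av B.st B.fr B.ra
  have hG : G3 r b a = G3 r a b := by
    unfold G3
    congr 1
    ext x; simp only [Set.mem_insert_iff, Set.mem_singleton_iff]; tauto
  have hP : Subgroup.closure ({b, a} : Set (Equiv.Perm H3)) = Subgroup.closure {a, b} := by
    rw [Set.pair_comm]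
  have fb : (vts (fc r b {v, r v})).encard = oE (r * b) := by
    apply face v r b a B.rr B.bb B.b1 B.bv
    · rw [hG, hP]; exact B.st
    · rw [hP]; exact B.fr
    · rw [hP]; exact B.rb
  constructor
  · ext n
    constructor
    · rintro ⟨f, ⟨g, _, hf | hf⟩, hn⟩
      · rw [hf, enc_vts, fa] at hn
        left; exact hn.symm
      · rw [hf, enc_vts, fb] at hn
        right; exact hn.symm
    · rintro (hn | hn)
      · refine ⟨(Set.image (1 : Equiv.Perm H3)) '' fc r a {v, r v}, ⟨1, one_mem _, Or.inl rfl⟩, ?_⟩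
        rw [enc_vts, fa, hn]
      · refine ⟨(Set.image (1 : Equiv.Perm H3)) '' fc r b {v, r v}, ⟨1, one_mem _, Or.inr rfl⟩, ?_⟩
        rw [enc_vts, fb, hn]
  · have h0 : (eds (KB v r a b) v).encard = 2 * oE (a * b) := by
      rw [← enc_d a b B.aa B.bb B.a1 B.b1]
      have hset : eds (KB v r a b) v =
          (fun h : Equiv.Perm H3 => h '' {v, r v}) '' ((Subgroup.closure {a, b} : Subgroup _) : Set (Equiv.Perm H3)) := by
        ext e
        constructor
        · rintro ⟨⟨g, hg, rfl⟩, y, hy, hyv⟩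
          rcases hy with hy | hy
          · rw [hy] at hyv
            exact ⟨g, B.st g hg hyv, rfl⟩
          · rw [Set.mem_singleton_iff] at hy
            rw [hy] at hyv
            refine ⟨g * r, B.st _ (mul_mem hg hr) hyv, ?_⟩
            simp only [Set.image_pair, Equiv.Perm.mul_apply, hrv]
            exact Set.pair_comm _ _
        · rintro ⟨h, hh, rfl⟩
          exact ⟨⟨h, hclab hh, rfl⟩, v, by simp, hfix h hh⟩
      rw [hset, Set.InjOn.encard_image]
      intro x hx y hy hxy
      have hxy' : (x : Equiv.Perm H3) '' {v, r v} = y '' {v, r v} := hxy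
      rw [Set.image_pair, Set.image_pair, hfix x hx, hfix y hy] at hxy'
      have h1 : x (r v) ≠ v := by
        intro hc
        apply B.rv
        apply x.injective
        rw [hc, hfix x hx]
      have h2 : x (r v) = y (r v) := by
        have : x (r v) ∈ ({v, y (r v)} : Set H3) := by rw [← hxy']; simp
        rcases this with h | h
        · exact absurd h h1
        · exact h
      have h3 : y⁻¹ * x = 1 := by
        apply B.fr _ (mul_mem (inv_mem hy) hx)
        rw [Equiv.Perm.mul_apply, h2, ← Equiv.Perm.mul_apply, inv_mul_cancel, Equiv.Perm.one_apply]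
      exact (inv_mul_eq_one.mp h3).symm
    have hE : ∀ g ∈ G3 r a b, eds (KB v r a b) (g v) = (Set.image g) '' eds (KB v r a b) v := by
      intro g hg
      ext e
      constructor
      · rintro ⟨⟨h, hh, rfl⟩, hm⟩
        refine ⟨(g⁻¹ * h : Equiv.Perm H3) '' {v, r v}, ⟨⟨g⁻¹ * h, mul_mem (inv_mem hg) hh, rfl⟩, ?_⟩, ?_⟩
        · obtain ⟨y, hy, hyv⟩ := hm
          refine ⟨y, hy, ?_⟩
          rw [Equiv.Perm.mul_apply, hyv, ← Equiv.Perm.mul_apply, inv_mul_cancel, Equiv.Perm.one_apply]
        · rw [← Set.image_comp, ← Equiv.Perm.coe_mul, mul_inv_cancel_left]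
      · rintro ⟨e', ⟨⟨h, hh, rfl⟩, hm⟩, rfl⟩
        refine ⟨⟨g * h, mul_mem hg hh, ?_⟩, v, hm, rfl⟩
        rw [← Set.image_comp, ← Equiv.Perm.coe_mul]
    have hi : ∀ g : Equiv.Perm H3, Function.Injective (Set.image g) := fun g => g.injective.image_injective
    ext n
    constructor
    · rintro ⟨x, ⟨g, hg, rfl⟩, hn⟩
      rw [hE g hg, (hi g).encard_image, h0] at hn
      exact hn.symm
    · intro hn
      rw [Set.mem_singleton_iff] at hn
      exact ⟨v, ⟨1, one_mem _, rfl⟩, by rw [h0, hn]⟩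

end Pool.Agent.H38.TOH.BEE
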