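import Mathlib
import Pool.Agent.H39.TO.Targets

/-!
# Row XBB: even or infinite faces
-/

set_option autoImplicit false

noncomputable section

namespace Pool.Agent.H38.TOH.XBB

open Pool.Agent.H57.CP Pool.Agent.H39.TO

theorem ord_ss (h1 : T_DIF) (h2 : T_DII) (M : CoxeterMatrix (Fin 3)) (al : Fin 3 → V4) (σ : M.Group →* Module.End ℝ V4)
    (hN : Nrm M al) (hS : Sg M al σ) (i j : Fin 3) (hij : i ≠ j) : orderOf (ss M i * ss M j) = M i j := by
  have key : ∀ m : ℕ, orderOf (ss M i * ss M j) ∣ m ↔ M i j ∣ m := by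
    intro m
    rw [orderOf_dvd_iff_pow_eq_one]
    by_cases h : M i j = 0
    · rw [h2 M al σ hN hS i j hij h, h, Nat.zero_dvd]
    · exact (h1 M al σ hN hS i j hij h).2 m
  exact Nat.dvd_antisymm ((key _).mpr dvd_rfl) ((key _).mp dvd_rfl)

theorem oE_ss (h1 : T_DIF) (h2 : T_DII) (M : CoxeterMatrix (Fin 3)) (al : Fin 3 → V4) (σ : M.Group →* Module.End ℝ V4)
    (ψ : M.Group →* Equiv.Perm H3) (hψ : Function.Injective ψ)
    (hN : Nrm M al) (hS : Sg M al σ) (i j : Fin 3) (hij : i ≠ j) :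
    oE (ψ (ss M i) * ψ (ss M j)) = if M i j = 0 then ⊤ else (M i j : ℕ∞) := by
  unfold oE
  rw [← map_mul, orderOf_injective ψ hψ, ord_ss h1 h2 M al σ hN hS i j hij]

theorem ch_refl (M : CoxeterMatrix (Fin 3)) (al : Fin 3 → V4) (σ : M.Group →* Module.End ℝ V4)
    (ψ : M.Group →* Equiv.Perm H3) (hS : Sg M al σ) (hP : Ps M σ ψ) (i : Fin 3) (v : H3) :
    ch v (ψ (ss M i) v) = 1 + 2 * (mk v.1 (al i)) ^ 2 := by
  have h1 := (hP (ss M i)).2 v
  rw [hS i] at h1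
  have h2 : mk v.1 v.1 = 1 := v.2.1
  unfold ch
  rw [← h1]
  simp only [Pool.Agent.H57.CP.refl, mk, LinearMap.coe_mk, AddHom.coe_mk] at *
  linear_combination h2

theorem pf (hNRA : T_NRA) (hREP : T_REP) (hPSI : T_PSI) (hAWS : T_AWS) (hDIF : T_DIF) (hDII : T_DII)
    (hAEB : T_AEB) (hAEE : T_AEE) (hAEF : T_AEF) : T_XBB := by
  intro p q q' hp hp4 hq hq' hqq
  obtain ⟨m, hm1, hm⟩ : ∃ m : ℕ, m ≠ 1 ∧ (2 * (if m = 0 then ⊤ else (m : ℕ∞)) = p) := by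
    rcases hp with rfl | ⟨m, rfl⟩
    · exact ⟨0, by norm_num, by simp⟩
    · have h4 : 4 ≤ 2 * m := by exact_mod_cast hp4
      refine ⟨m, by omega, ?_⟩
      rw [if_neg (by omega)]
      push_cast
      rfl
  let M := cox m q q' ⟨hm1, by omega, by omega⟩
  have M01 : M 0 1 = m := rfl
  have M02 : M 0 2 = q := rfl
  have M12 : M 1 2 = q' := rfl
  obtain ⟨al, hN, h0, h2, h1, v', g1, g2, g0, hne⟩ := hNRA M 0 1 2 (by decide) (by decide) (by decide)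
    (by rw [M02]; omega) (by rw [M12]; omega)
  obtain ⟨σ, hS⟩ := hREP M al hN
  obtain ⟨ψ, hP, hψ⟩ := hPSI M al σ hN hS
  have hA := hAWS M al σ ψ hN hS hP hψ 0 1 2 o v' (by decide) (by decide) (by decide)
    (by rw [M02]; omega) (by rw [M12]; omega) (by rw [M02, M12]; omega) h0 h2 h1 g1 g2 g0
  refine ⟨KA o v' (ψ (ss M 0)) (ψ (ss M 1)) (ψ (ss M 2)), hAEB _ _ _ _ _ hA, hAEF _ _ _ _ _ hA ?_, ?_, ?_⟩
  · right
    rw [ch_refl M al σ ψ hS hP, ch_refl M al σ ψ hS hP]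
    intro hc
    apply hne
    have h3 : (mk v'.1 (al 0)) ^ 2 = (mk o.1 (al 1)) ^ 2 := by linarith
    rcases sq_eq_sq_iff_eq_or_eq_neg.mp h3 with h4 | h4
    · exact h4
    · linarith
  · rw [(hAEE _ _ _ _ _ hA).1, oE_ss hDIF hDII M al σ ψ hψ hN hS 0 1 (by decide), M01, hm]
  · rw [(hAEE _ _ _ _ _ hA).2, oE_ss hDIF hDII M al σ ψ hψ hN hS 0 2 (by decide),
      oE_ss hDIF hDII M al σ ψ hψ hN hS 1 2 (by decide), M02, M12, if_neg (by omega), if_neg (by omega)]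

end Pool.Agent.H38.TOH.XBB
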